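import Pool.Agent.NH7.Cub.Den3
import Pool.Agent.NH7.Cub.Gal2

/-!
# The Selmer group conjecture in 2-extensions with almost any branch locus

The definitions of `Gal`, of the groups of points, of continuous cocycles, of `ShaTwoTrivial` and of
`ShaTateTrivial` are in `Pool.Agent.W309.TD.Stmt`, the definition of `TwoTower` is in
`Pool.Agent.NH7.Cub.Tower`.
-/

set_option autoImplicit false
set_option linter.all false

open Polynomial IsDedekindDomain NumberField

namespace Pool.Agent.Results.MP_1bdb59_nt.AlmostAllBranchLoci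

open Pool.Agent.W309.Sha

/-- The polynomial `d (i, 0) + d (i, 1) s + ... + d (i, n) s ^ n` over `k`. -/
noncomputable def coeffPoly {k : Type} [Field k] {m n : ℕ} (d : Fin m × Fin (n + 1) → 𝓞 k)
    (i : Fin m) : k[X] :=
  ∑ j : Fin (n + 1), C (algebraMap (𝓞 k) k (d (i, j))) * X ^ (j : ℕ)

/-- The quadratic twist `D y ^ 2 = x ^ 3 + a x ^ 2 + b x + c - s` over an extension `L` of `k(s)`,
where `s` is the image of `X`, in Weierstrass form
`y ^ 2 = x ^ 3 + D a x ^ 2 + D ^ 2 b x + D ^ 3 (c - s)`. -/
noncomputable def E {k : Type} [Field k] (a b c : k) {L : Type} [Field L] [Algebra k[X] L] (D : L) :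
    WeierstrassCurve L where
  a₁ := 0
  a₂ := D * algebraMap k[X] L (C a)
  a₃ := 0
  a₄ := D ^ 2 * algebraMap k[X] L (C b)
  a₆ := D ^ 3 * algebraMap k[X] L (C c - X)

/-- The maximal ideal `w` of `S` is ramified over `k[s]`. -/
def IsRamified {k S : Type} [Field k] [CommRing S] [IsDedekindDomain S] [Algebra k[X] S]
    (w : HeightOneSpectrum S) : Prop :=
  (w.asIdeal.under k[X]).map (algebraMap k[X] S) ≤ w.asIdeal ^ 2

open scoped Classical in
/-- For every extension `L` of `k(s)` which is a tower of quadratic extensions, for instance a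
Galois extension whose degree is a power of two, and every `D ≠ 0` in `L`, such that `L` is
unramified over `k[s]` and `D` has even valuation outside the zeros of the polynomials `P i`:
multiplication by two is bijective on `E(L)` for the twist `E` by `D`, every class of 2-power order
in `H ^ 1 (L, E)` which is zero over the completions at all maximal ideals of the integral closure
`S` of `k[s]` is zero, and the 2-adic Tate module of the Tate-Shafarevich group is zero. -/
def NoShaInTowers {k : Type} [Field k] (a b c : k) {m : ℕ} (P : Fin m → k[X]) : Prop :=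
  ∀ (L : Type) [Field L] [Algebra (RatFunc k) L] [Algebra k[X] L]
    [IsScalarTower k[X] (RatFunc k) L] (S : Type) [CommRing S] [IsDedekindDomain S]
    [Algebra k[X] S] [Algebra S L] [IsScalarTower k[X] S L] [IsFractionRing S L]
    [IsIntegralClosure S k[X] L] (D : L),
    (NH7.Cub.TwoTower (RatFunc k) L ∨
      (IsGalois (RatFunc k) L ∧ ∃ r : ℕ, Module.finrank (RatFunc k) L = 2 ^ r)) → D ≠ 0 →
    (∀ w : HeightOneSpectrum S, IsRamified (k := k) w ∨ ¬ IsSquare (w.valuation L D) →
      ∃ i, algebraMap k[X] S (P i) ∈ w.asIdeal) →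
    (∀ Q : Points (E a b c D) L, ∃! Q' : Points (E a b c D) L, Q' + Q' = Q) ∧
      ShaTwoTrivial S (E a b c D) ∧ ShaTateTrivial S (E a b c D)

/-- Let `k` be a number field, `a, b, c` in `k` with `a ^ 2 ≠ 3 b` and `n ≥ 1`. For 100 percent of
all tuples `(P 1, ..., P m)` of polynomials in `s` of degree at most `n` with integral coefficients,
ordered by the size of the coordinates of the coefficients for a given integral basis `B` of `k`,
the following holds for the elliptic curves `D y ^ 2 = x ^ 3 + a x ^ 2 + b x + c - s`: for every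
tower `L` of quadratic extensions of `k(s)` which is ramified only above the zeros of the `P i` and
infinity, and every `D` in `L` with even valuations outside the zeros of the `P i` and infinity,
multiplication by two is bijective on `E(L)`, and every class of 2-power order in `H ^ 1 (L, E)`
which is zero over the completions at all maximal ideals of the integral closure of `k[s]` in `L`
is zero. -/
theorem result (k : Type) [Field k] [NumberField k] (I : Type) [Fintype I]
    (B : Module.Basis I ℤ (𝓞 k)) (a b c : k) (hab : a ^ 2 ≠ 3 * b) (m n : ℕ) (hn : 1 ≤ n)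
    (η : ℝ) (hη : 0 < η) :
    ∃ H₀ : ℕ, ∀ H : ℕ, H₀ ≤ H →
      ({d : Fin m × Fin (n + 1) → 𝓞 k | (∀ q j, |B.repr (d q) j| ≤ (H : ℤ)) ∧
        ¬ NoShaInTowers a b c (coeffPoly d)}.ncard : ℝ) ≤
        η * ((2 * (H : ℝ) + 1) ^ (m * (n + 1))) ^ Fintype.card I := by
  obtain ⟨H0, h0⟩ := NH7.Cub.dens_main B c hab m hn hη
  refine ⟨H0, fun H hH => ?_⟩
  have h1 := h0 H hH {d : Fin m × Fin (n + 1) → 𝓞 k | (∀ q j, |B.repr (d q) j| ≤ (H : ℤ)) ∧
        ¬ NoShaInTowers a b c (coeffPoly d)} (fun d hd => ?_)
  · rw [Fintype.card_prod, Fintype.card_fin, Fintype.card_fin, pow_mul] at h1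
    exact h1
  refine ⟨hd.1, ?_⟩
  by_contra hcon
  push Not at hcon
  apply hd.2
  intro L _ _ _ _ S _ _ _ _ _ _ _ D hL hD hram
  haveI : Algebra.IsIntegral k[X] S := IsIntegralClosure.isIntegral_algebra k[X] L
  have h2K : (2 : RatFunc k) ≠ 0 := two_ne_zero
  have hL' : NH7.Cub.TwoTower (RatFunc k) L := by
    rcases hL with h | ⟨hG, r, hr⟩
    · exact h
    · exact NH7.Cub.twoTower_of_galois r (RatFunc k) L h2K hr
  refine NH7.Cub.main_tw (K := RatFunc k) (S := S) two_ne_zero hL' a b c hab D hD
    (fun w hw g => ?_)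
  obtain ⟨i, hi⟩ := hram w hw
  have hirr : Irreducible ((coeffPoly d i).comp (NH7.Cub.cub a b c)) := hcon i
  refine NH7.Cub.sil_of_comp (fun h => ?_) hirr w hi g
  rw [eq_C_of_natDegree_eq_zero h, C_comp] at hirr
  exact not_irreducible_C _ hirr

end Pool.Agent.Results.MP_1bdb59_nt.AlmostAllBranchLoci
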