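import Pool.Agent.X261.MF.Main
import Pool.Agent.NH7.AC.Main

/-!
# The Selmer group conjecture for the twists of almost all superelliptic curves

The definitions of the Jacobian, of the statement of the Tate conjecture and of the triviality of the
Tate-Shafarevich group are in `Pool.Agent.Y160.SL.Jac`, `IsBasisAt` is in `Pool.Agent.Y160.SL.Fam`.
-/

set_option autoImplicit false

open Polynomial IsDedekindDomain NumberField
open scoped Classical

namespace Pool.Agent.Results.MP_1bdb59_nt.AlmostAllSuperelliptic

open Pool.Agent.TH115.GD (IsTower)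
open Pool.Agent.Y160.SL (Jac TateAt ShaTriv IsBasisAt)

section defs

variable {k : Type} [Field k]

/-- The exponents `(i, j)` with `i < N` and `n i + N j ≤ N n`. -/
abbrev Exponent (N n : ℕ) : Type :=
  {q : Fin N × Fin (n + 1) // n * (q.1 : ℕ) + N * (q.2 : ℕ) ≤ N * n}

/-- The polynomial `x ^ N + ∑ c (i, j) x ^ i t ^ j` in `x` over `k[t]`. -/
noncomputable def curve {N n : ℕ} (c : Exponent N n → 𝓞 k) : k[X][X] :=
  X ^ N + ∑ q : Exponent N n, C (C (algebraMap (𝓞 k) k (c q)) * X ^ (q.1.2 : ℕ)) * X ^ (q.1.1 : ℕ)

/-- The polynomial `f` in `x` over `k[t]` defines a smooth, absolutely irreducible affine plane curve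
whose coordinate ring `R = k[t, x] / (f)` has no units besides the constants and no ideal classes of
order `p` (if the `p`-th power of an ideal is principal, the ideal is principal). -/
structure IsBranchCurve (p : ℕ) (f : k[X][X]) : Prop where
  irreducible : ∀ (k' : Type) [Field k'] [Algebra k k'],
    Irreducible (f.map (mapRingHom (algebraMap k k')))
  smooth : Ideal.span {f, derivative f, f.sum fun i a => C (derivative a) * X ^ i} = ⊤
  dedekind : IsDedekindDomain (AdjoinRoot f)
  ideals : ∀ I : Ideal (AdjoinRoot f), (I ^ p).IsPrincipal → I.IsPrincipal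
  units : ∀ u : (AdjoinRoot f)ˣ, ∃ c : k, (u : AdjoinRoot f) = algebraMap k (AdjoinRoot f) c

/-- The prime divisors of `D` are inert in the curve `f(x, t) = 0` over the `t`-line. -/
def IsInert (f : k[X][X]) (D : k[X]) : Prop :=
  ∀ P : k[X], Irreducible P → P ∣ D → Irreducible (f.map (AdjoinRoot.mk P))

/-- The prime `P` of `k[t]` has exactly the `r` primes `g_i(x, t) = 0` above it in the curve
`f(x, t) = 0`: `f - P` is the product of the monic polynomials `g_i`, which are irreducible modulo `P`,
over the field `k[t] / (P)`, and different modulo `P`. -/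
structure IsSplitPrime (f : k[X][X]) {r : ℕ} (g : Fin r → k[X][X]) (P : k[X]) : Prop where
  prime : Irreducible P
  eq : f = C P + ∏ i, g i
  monic : ∀ i, (g i).Monic
  irreducible : ∀ i, Irreducible ((g i).map (AdjoinRoot.mk P))
  distinct : ∀ i i', i ≠ i' → (g i).map (AdjoinRoot.mk P) ≠ (g i').map (AdjoinRoot.mk P)

/-- The polynomial `D ^ N f(x / D, t)` in `x` over `K = k(t)`, where `N` is the degree of `f` in `x`. The
surface `w ^ q = D ^ N f(x / D, t)` is the twist of `w ^ q = f(x, t)` by `D(t) ^ N`. -/
noncomputable def twist (K : Type) [Field K] [Algebra k[X] K] (f : k[X][X]) (D : k[X]) : K[X] :=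
  (f.scaleRoots D).map (algebraMap k[X] K)

/-- The conclusions, for the Jacobian `J` over `K = k(t)` of the curve `w ^ q = G(x)`, where `kb` is the
separable closure of `k` and `F = kb(t)`: the Tate conjecture at `p` for the surface `w ^ q = G(x)` over
the projective line; every class of `p`-power order in `H ^ 1 (K, J)` which is zero over the completions
at all closed points of the affine line is zero; and there is a basis of `J(K)` at `p` with `r (q - 1)`
elements. -/
def Holds (p q r : ℕ) (k k' F : Type) {K : Type} [Field k] [Field k'] [Field K] [Field F]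
    [Algebra K F] [Algebra k[X] K] [IsFractionRing k[X] K] [Algebra k'[X] F]
    [IsFractionRing k'[X] F] (G : K[X]) : Prop :=
  TateAt (F := F) p q k' G ∧ ShaTriv p q k[X] G ∧
    ∃ b : Fin (r * (q - 1)) → Jac q G K, IsBasisAt p b

/-- The properties of the good polynomials `f`: `f = 0` is a branch curve without ideal classes of order
`p`; for every `D ≠ 0` all of whose prime divisors are inert the conclusions hold for the twist of
`w ^ q = f(x, t)` by `D ^ N`, with rank zero; and for every prime `P` of `k[t]` with exactly `m + 1`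
primes `g_i = 0` above it, `f = P + ∏ g_i`, and every `j` with `q ∣ N j + 1` the conclusions hold for the
twist by `P ^ (N j)`, with rank `m (q - 1)`. -/
def IsGood (p q : ℕ) (f : k[X][X]) : Prop :=
  IsBranchCurve p f ∧
  (∀ D : k[X], D ≠ 0 → IsInert f D → ∀ (kb K F : Type) [Field kb] [Algebra k kb] [Field K]
    [Algebra k[X] K] [IsFractionRing k[X] K] [Field F] [Algebra kb[X] F] [IsFractionRing kb[X] F]
    [Algebra K F], IsTower k kb K F → Holds p q 0 k kb F (twist K f D)) ∧
  ∀ (m : ℕ) (g : Fin (m + 1) → k[X][X]) (P : k[X]), IsSplitPrime f g P → ∀ j : ℕ,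
    q ∣ f.natDegree * j + 1 → ∀ (kb K F : Type) [Field kb] [Algebra k kb] [Field K]
    [Algebra k[X] K] [IsFractionRing k[X] K] [Field F] [Algebra kb[X] F] [IsFractionRing kb[X] F]
    [Algebra K F], IsTower k kb K F → Holds p q m k kb F (twist K f (P ^ j))

end defs

theorem holds_of {k k' K F : Type} [Field k] [Field k'] [Field K] [Field F] [Algebra K F]
    [Algebra k[X] K] [IsFractionRing k[X] K] [Algebra k'[X] F] [IsFractionRing k'[X] F]
    {p q r : ℕ} {G : K[X]} (h : Pool.Agent.Y160.SL.Concl p q r k k' F G) :
    Holds p q r k k' F G := by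
  obtain ⟨D, hD1, hD2⟩ := h.basis
  let e : Fin (r * (q - 1)) ≃ Fin r × Fin (q - 1) := finProdFinEquiv.symm
  refine ⟨h.tate, h.sha, fun i => D (e i), hD1.comp _ e.injective, fun n x => ?_⟩
  obtain ⟨y, hy⟩ := hD2 n x
  refine ⟨y, ?_⟩
  have e1 : Set.range (fun i => D (e i)) = Set.range D := e.surjective.range_comp D
  rw [e1]
  exact hy

theorem ring_of {k : Type} [Field k] {p : ℕ} (hp : p.Prime) {f : k[X][X]}
    (h : IsBranchCurve p f) : ∃ _ : IsDedekindDomain (AdjoinRoot f),
      Pool.Agent.Y160.T7.PropT p k (AdjoinRoot f) :=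
  ⟨h.dedekind, by
    let := h.dedekind
    exact Pool.Agent.X261.BC.propT_of_class hp.pos
      (Pool.Agent.X261.BC.class_of_ideal h.ideals) h.units⟩

/-- Let `p` be a prime number, `q = p ^ (s + 1)`, let `k` be a number field which contains the `q`-th
roots of unity, and let `N`, `n` be coprime positive integers, `N` prime to `p`. For 100 percent of the
polynomials `f = x ^ N + ∑ c_ij x ^ i t ^ j` (sum over `i < N`, `n i + N j ≤ N n`) with coefficients in the
ring of integers of `k`, ordered by the size of the coordinates of the coefficients with respect to an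
integral basis `B`, the following holds (`IsGood`): the coordinate ring `k[t, x] / (f)` has no ideal
classes of order `p`, and for ALL `D ≠ 0` in `k[t]` all of whose prime divisors `P` are inert (`f` is
irreducible modulo `P`), for example `D = 1`, and for the Jacobian `J` of `w ^ q = D ^ N f(x / D, t)` over
`K = k(t)`: every class of `p`-power order in `H ^ 1 (K, J)` which is zero over the completions at all
closed points of the affine line is zero, `J(K)` is `p`-divisible up to a basis with zero elements, and
the Tate conjecture at `p` holds for the surface. The same holds, with rank `m (q - 1)`, for the twists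
by powers of primes `P` with `m + 1` primes above it. -/
theorem result (k : Type) [Field k] [NumberField k] (I : Type) [Fintype I]
    (B : Module.Basis I ℤ (𝓞 k)) (p s : ℕ) (hp : p.Prime) (ζ : k)
    (hζ : IsPrimitiveRoot ζ (p ^ (s + 1))) (N n : ℕ) (hN : 0 < N) (hn : 0 < n)
    (hNn : N.Coprime n) (hpN : ¬ p ∣ N) (η : ℝ) (hη : 0 < η) :
    ∃ H₀ : ℕ, ∀ H : ℕ, H₀ ≤ H →
      ({c : Exponent N n → 𝓞 k | (∀ q j, |B.repr (c q) j| ≤ (H : ℤ)) ∧
        ¬ IsGood p (p ^ (s + 1)) (curve c)}.ncard : ℝ) ≤
        η * ((2 * (H : ℝ) + 1) ^ Fintype.card (Exponent N n)) ^ Fintype.card I := by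
  refine NH7.AC.good_dens hN hn hNn hp B hη (fun c => IsGood p (p ^ (s + 1)) (curve c)) ?_
  intro c hc
  have hcv : curve c = NH7.AC.ff fun q => algebraMap (𝓞 k) k (c q) := rfl
  rw [← hcv] at hc
  have hmon : (curve c).Monic := by
    rw [hcv]
    exact NH7.AC.ff_monic _
  have hdeg : (curve c).natDegree = N := by
    rw [hcv]
    exact NH7.AC.ff_natDegree _
  have hbc : IsBranchCurve p (curve c) :=
    ⟨hc.irreducible, hc.smooth, hc.dedekind, hc.ideals, hc.units⟩
  have hcop : p.Coprime (curve c).natDegree := by
    rw [hdeg]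
    exact (Nat.Prime.coprime_iff_not_dvd hp).2 hpN
  have hder : derivative (curve c) ≠ 0 := by
    intro h0
    have h1 := congrArg (fun g => coeff g (N - 1)) h0
    simp only [coeff_derivative, coeff_zero] at h1
    have h2 : N - 1 + 1 = N := Nat.sub_add_cancel hN
    rw [h2] at h1
    have h3 : (curve c).coeff N = 1 := by
      have h4 := hmon.leadingCoeff
      rw [leadingCoeff, hdeg] at h4
      exact h4
    rw [h3, one_mul] at h1
    have h5 : ((N : ℕ) : k[X]) = 0 := by
      have h6 : ((N - 1 + 1 : ℕ) : k[X]) = 0 := by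
        push_cast
        exact h1
      rwa [h2] at h6
    exact hN.ne' (Nat.cast_eq_zero.1 h5)
  refine ⟨hbc, ?_, ?_⟩
  · intro D hD hin kb K F _ _ _ _ _ _ _ _ _ hT
    exact holds_of (Pool.Agent.X261.BC.mainI hT hp hζ hmon hcop (hbc.irreducible kb) hder
      hbc.smooth (ring_of hp hbc) hD hin)
  · intro m g P hS j hj kb K F _ _ _ _ _ _ _ _ _ hT
    exact holds_of (Pool.Agent.X261.MF.mainG hT hp hζ hmon hcop (hbc.irreducible kb) hder
      hbc.smooth (ring_of hp hbc) hS.prime hS.monic hS.eq hS.irreducible hS.distinct hj)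

end Pool.Agent.Results.MP_1bdb59_nt.AlmostAllSuperelliptic
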