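import Pool.Agent.NH7.Cub.Trans3
import Pool.Agent.NH7.Cub.Gal2

/-!
# The Selmer group conjecture for generic translates `y ^ 2 = x ^ 3 + a x ^ 2 + b x + c - u`

The definitions of `Gal`, of the groups of points, of continuous cocycles, of `ShaTwoTrivial` and of
`ShaTateTrivial` are in `Pool.Agent.W309.TD.Stmt`, the definition of `TwoTower` is in
`Pool.Agent.NH7.Cub.Tower`.
-/

set_option autoImplicit false
set_option linter.all false

open Polynomial IsDedekindDomain

namespace Pool.Agent.Results.MP_1bdb59_nt.GenericTranslates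

open Pool.Agent.W309.Sha

/-- The value at `x` of the cubic polynomial with coefficients `a`, `b`, `c`. -/
def cubic {B : Type} [CommRing B] (a b c x : B) : B := x ^ 3 + a * x ^ 2 + b * x + c

section definitions

variable {F₀ : Type} [Field F₀]

/-- A polynomial in `u` with coefficients in a subring `T` of `F₀`, as an element of `F₀(u)`. -/
noncomputable def elt (T : Type) [CommRing T] [Algebra T F₀] (p : T[X]) : RatFunc F₀ :=
  algebraMap F₀[X] (RatFunc F₀) (p.map (algebraMap T F₀))

/-- An element of a subring `T` of `F₀` as an element of `L`, where `L` contains `F₀(u)`. -/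
noncomputable def inL {T : Type} [CommRing T] [Algebra T F₀] (L : Type) [Field L]
    [Algebra (RatFunc F₀) L] (t : T) : L :=
  algebraMap (RatFunc F₀) L (RatFunc.C (algebraMap T F₀ t))

/-- The element `u` of `L`, where `L` contains `F₀(u)`. -/
noncomputable def u (F₀ : Type) [Field F₀] (L : Type) [Field L] [Algebra (RatFunc F₀) L] : L :=
  algebraMap (RatFunc F₀) L RatFunc.X

/-- The quadratic twist `D y ^ 2 = x ^ 3 + a x ^ 2 + b x + c - u`, in Weierstrass form
`y ^ 2 = x ^ 3 + D a x ^ 2 + D ^ 2 b x + D ^ 3 (c - u)`. -/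
noncomputable def E {A₀ : Type} [CommRing A₀] [Algebra A₀ F₀] (a b c : A₀) {L : Type} [Field L]
    [Algebra (RatFunc F₀) L] (D : L) : WeierstrassCurve L where
  a₁ := 0
  a₂ := D * inL (F₀ := F₀) L a
  a₃ := 0
  a₄ := D ^ 2 * inL (F₀ := F₀) L b
  a₆ := D ^ 3 * (inL (F₀ := F₀) L c - u F₀ L)

end definitions

section primes

variable (R : Type) [CommRing R] {S : Type} [CommRing S] [IsDedekindDomain S] [Algebra R S]

/-- The maximal ideal `w` of `S` is ramified over `R`. -/
def IsRamified (w : HeightOneSpectrum S) : Prop :=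
  (w.asIdeal.under R).map (algebraMap R S) ≤ w.asIdeal ^ 2

variable {F₀ A₀ L : Type} [Field F₀] [CommRing A₀] [Algebra A₀ F₀] [Field L]
  [Algebra (RatFunc F₀) L] [Algebra R L] [Algebra S L] [IsFractionRing S L]

/-- The maximal ideal `w` of `S` lies over a closed point of the curve with coordinate ring
`A₀`. -/
def LiesOverPoint (F₀ A₀ : Type) [Field F₀] [CommRing A₀] [Algebra A₀ F₀] (L : Type) [Field L]
    [Algebra (RatFunc F₀) L] [Algebra S L] [IsFractionRing S L] (w : HeightOneSpectrum S) : Prop :=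
  ∃ t : A₀, t ≠ 0 ∧ w.valuation L (inL (F₀ := F₀) L t) < 1

/-- The cubic polynomial `x ^ 3 + a x ^ 2 + b x + c - u` has no root modulo the prime of `R` under
the maximal ideal `w` of `S`: its values at the elements of `R` are units at `w`. -/
def IsSilent (F₀ : Type) [Field F₀] {A₀ : Type} [CommRing A₀] [Algebra A₀ F₀] (a b c : A₀)
    (L : Type) [Field L] [Algebra (RatFunc F₀) L] [Algebra R L] [Algebra S L] [IsFractionRing S L]
    (w : HeightOneSpectrum S) : Prop :=
  ∀ g : R, w.valuation L (cubic (inL (F₀ := F₀) L a) (inL (F₀ := F₀) L b)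
    (inL (F₀ := F₀) L c - u F₀ L) (algebraMap R L g)) = 1

end primes

open scoped Classical in
/-- Let `A₀` be the coordinate ring of an affine curve over a field `k₀` of characteristic
different from 2 and 3, let `F₀` be its function field and `k = k₀(u)`, so that `K = F₀(u)` is the
function field of the same curve over `k`, with coordinate ring `R = k ⊗ A₀`, which is described in
`hR`. Let `a, b, c` be in `A₀` with `a ^ 2 ≠ 3 b`, such that `x ^ 3 + a x ^ 2 + b x + c - κ` has no
root in `F₀(κ)` for any constant `κ` algebraic over `k₀`. Let `L` be a tower of quadratic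
extensions of `K`, for instance a Galois extension whose degree is a power of two, let `S` be the
integral closure of `R` in `L` and let `D ≠ 0` in `L`. Assume that every maximal ideal of `S` which
is ramified over `R` or at which `D` has odd valuation lies over a closed point of the curve over
`k₀`, or over a prime of `R` modulo which `x ^ 3 + a x ^ 2 + b x + c - u` has no root. Then for
the elliptic curve `D y ^ 2 = x ^ 3 + a x ^ 2 + b x + c - u` multiplication by two is bijective on
`E(L)`, every class of 2-power order in `H ^ 1 (L, E)` which is zero over the completions at all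
maximal ideals of `S` is zero, and the 2-adic Tate module of the Tate-Shafarevich group is zero. -/
theorem result (k₀ : Type) [Field k₀] (h6 : (6 : k₀) ≠ 0)
    (A₀ : Type) [CommRing A₀] [IsDedekindDomain A₀] [Algebra k₀ A₀] [Algebra.FiniteType k₀ A₀]
    (F₀ : Type) [Field F₀] [Algebra A₀ F₀] [IsFractionRing A₀ F₀] [Algebra k₀ F₀]
    [IsScalarTower k₀ A₀ F₀] (a b c : A₀) (hab : a ^ 2 ≠ 3 * b)
    (hgen : ∀ x κ : AlgebraicClosure F₀, IsAlgebraic k₀ κ →
      cubic (algebraMap F₀ _ (algebraMap A₀ F₀ a)) (algebraMap F₀ _ (algebraMap A₀ F₀ b))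
        (algebraMap F₀ _ (algebraMap A₀ F₀ c)) x = κ → x ∉ IntermediateField.adjoin F₀ {κ})
    (R : Type) [CommRing R] [IsDedekindDomain R] [Algebra R (RatFunc F₀)]
    [IsFractionRing R (RatFunc F₀)]
    (hR : ∀ z : RatFunc F₀, (∃ r : R, algebraMap R (RatFunc F₀) r = z) ↔
      ∃ (p : A₀[X]) (q : k₀[X]), q ≠ 0 ∧ z = elt A₀ p / elt k₀ q)
    (L : Type) [Field L] [Algebra (RatFunc F₀) L] [Algebra R L]
    [IsScalarTower R (RatFunc F₀) L]
    (hL : NH7.Cub.TwoTower (RatFunc F₀) L ∨
      (IsGalois (RatFunc F₀) L ∧ ∃ n : ℕ, Module.finrank (RatFunc F₀) L = 2 ^ n))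
    (S : Type) [CommRing S] [IsDedekindDomain S] [Algebra R S] [Algebra S L]
    [IsScalarTower R S L] [IsFractionRing S L] [IsIntegralClosure S R L]
    (D : L) (hD : D ≠ 0)
    (hram : ∀ w : HeightOneSpectrum S,
      IsRamified R w ∨ ¬ IsSquare (w.valuation L D) →
        LiesOverPoint F₀ A₀ L w ∨ IsSilent R F₀ a b c L w) :
    (∀ P : Points (E (F₀ := F₀) a b c D) L,
      ∃! Q : Points (E (F₀ := F₀) a b c D) L, Q + Q = P) ∧
      ShaTwoTrivial S (E (F₀ := F₀) a b c D) ∧ ShaTateTrivial S (E (F₀ := F₀) a b c D) := by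
  haveI : Algebra.IsIntegral R S := IsIntegralClosure.isIntegral_algebra R L
  have h2K : (2 : RatFunc F₀) ≠ 0 := by
    have h1 : (2 : RatFunc F₀) = RatFunc.C (algebraMap k₀ F₀ 2) := by
      rw [map_ofNat, map_ofNat]
    rw [h1, Ne, map_eq_zero_iff _ RatFunc.C_injective, map_eq_zero_iff _
      (algebraMap k₀ F₀).injective]
    intro h0
    apply h6
    have : (6 : k₀) = 2 * 3 := by norm_num
    rw [this, h0, zero_mul]
  have hL' : NH7.Cub.TwoTower (RatFunc F₀) L := by
    rcases hL with h | ⟨hG, n, hn⟩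
    · exact h
    · exact NH7.Cub.twoTower_of_galois n (RatFunc F₀) L h2K hn
  have ecf : ∀ t : A₀, NH7.Cub.cf (RatFunc F₀) (algebraMap A₀ F₀ t) =
      RatFunc.C (algebraMap A₀ F₀ t) := fun t => RatFunc.algebraMap_C _
  have ecs : NH7.Cub.cs (RatFunc F₀) (algebraMap A₀ F₀ c) =
      RatFunc.C (algebraMap A₀ F₀ c) - RatFunc.X := by
    rw [NH7.Cub.cs, map_sub, RatFunc.algebraMap_C, RatFunc.algebraMap_X]
  refine NH7.Cub.trans_main (k₀ := k₀) (A₀ := A₀) (F₀ := F₀) (K := RatFunc F₀) (R := R) (L := L)
    (S := S) h6 hL' a b c hab (fun x hx => hgen x _ hx rfl) hR D hD (fun w hw => ?_)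
    (E (F₀ := F₀) a b c D) rfl rfl ?_ ?_ ?_
  · rcases hram w hw with ⟨t, ht, htw⟩ | hs
    · left
      refine ⟨t, ht, ?_⟩
      rw [ecf]
      exact htw
    · right
      intro g
      have h1 := hs g
      rw [ecf, ecf, ecs]
      simp only [cubic, inL, u] at h1
      simp only [map_add, map_sub, map_mul, map_pow]
      rw [← IsScalarTower.algebraMap_apply R (RatFunc F₀) L]
      exact h1
  · rw [ecf]; rfl
  · rw [ecf]; rfl
  · rw [ecs, map_sub]; rfl

end Pool.Agent.Results.MP_1bdb59_nt.GenericTranslates
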