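import Pool.Agent.NH7.GH.Ram
import Pool.Agent.NH7.GH.P2.Fin
import Pool.Agent.NH7.GH.CstP
import Pool.Agent.NH7.GH.DvdHP
import Pool.Agent.NH7.GH.HilP
import Pool.Agent.NH7.GH.HilvP
import Pool.Agent.NH7.GH.InvP
import Pool.Agent.NH7.GH.KlP
import Pool.Agent.NH7.GH.LzP
import Pool.Agent.NH7.GH.MnP
import Pool.Agent.NH7.GH.PlcHP
import Pool.Agent.NH7.GH.PoleP
import Pool.Agent.NH7.GH.RamP
import Pool.Agent.NH7.GH.RfinP
import Pool.Agent.NH7.GH.RkDP
import Pool.Agent.NH7.GH.UnrP
import Pool.Agent.NH7.GH.UpDP
import Pool.Agent.NH7.GF.UlimP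
import Pool.Agent.NH7.GF.LftP
import Pool.Agent.NH7.GF.CptP
import Pool.Agent.NH7.GF.AvgP
import Pool.Agent.NH7.GF.DnP
import Pool.Agent.NH7.GH.UpV
import Pool.Agent.NH7.FT.DerxP
import Pool.Agent.NH7.FT.GrmP
import Pool.Agent.NH7.FT.UltraP
import Pool.Agent.NH7.FT.MinP2
import Pool.Agent.NH7.FT.AbP
import Pool.Agent.NH7.FT.BezP
import Pool.Agent.NH7.FT.LinP
import Pool.Agent.NH7.FT.RepP
import Pool.Agent.NH7.FT.PicAP
import Pool.Agent.NH7.FT.AclP
import Pool.Agent.NH7.FT.ResP2
import Pool.Agent.NH7.FT.KumP
import Pool.Agent.NH7.FT.PicBP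
import Pool.Agent.NH7.FT.FGP

/-!
# Cyclic extensions of function fields over Hilbertian fields in which no rank and no
# Tate-Shafarevich group grows

Let `k` be a field which is finitely generated over `ℚ`, or more generally a Hilbertian field of
characteristic zero, let `K` be a function field of one variable over `k` and `p` a prime number such
that `K` contains a primitive `p`-th root of unity. The places of `K` are those which are trivial on `k`.
Let `S` be a finite nonempty set of places of `K`.

Theorem: there are infinitely many cyclic extensions `L / K` of degree `p`, ramified at all places in `S`,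
with prescribed completions at finitely many places, such that

* for **all** `N` and **all** continuous representations `ρ : G_K → GL_N(ℤ_p)` which are congruent to `1`
  modulo `p` (modulo `4` if `p = 2`) and unramified outside `S`, every class in `H ^ 1 (L, ℚ_p ^ N)`
  which is unramified outside `S` and whose restrictions to the completions above `S` are invariant under
  `Gal(L / K)` comes from a class in `H ^ 1 (K, ℚ_p ^ N)` which is unramified outside `S`;
* for **all** Galois modules `M` which have the properties of the group `A(K^sep)` of the points of an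
  abelian variety `A / K` with good reduction outside `S` all of whose points of order `p` (of order `4`
  if `p = 2`) are rational, the group of the points over `L` has the same rank as the group of the points
  over `K`, and the restriction is an isomorphism of the rational `p`-adic Tate modules of the
  Tate-Shafarevich groups over `K` and over `L`; in particular the one over `L` is zero if and only if
  the one over `K` is zero.
-/

set_option autoImplicit false

namespace Pool.Agent.Results.MP_1bdb59_nt.GoingUpOverHilbertianFields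

/-! ### Places, Galois groups, decomposition groups and inertia groups -/

section base

variable (k K : Type) [Field k] [Field K] [Algebra k K]

/-- The field `k` is Hilbertian: for every polynomial `F(t, X)` which is irreducible in `k(t)[X]` there
are infinitely many `a` in `k` such that `F(a, X)` is irreducible in `k[X]`. -/
def IsHilbertian (k : Type) [Field k] : Prop :=
  ∀ F : Polynomial (Polynomial k),
    Irreducible (F.map (algebraMap (Polynomial k) (RatFunc k))) →
      {a : k | Irreducible (F.map (Polynomial.evalRingHom a))}.Infinite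

/-- A place of the function field `K / k`: a valuation ring of `K`, other than `K` itself, which
contains `k`. -/
abbrev Place : Type := {O : ValuationSubring K // O ≠ ⊤ ∧ ∀ c : k, algebraMap k K c ∈ O}

end base

section basic

variable {k K Ω : Type} [Field k] [Field K] [Algebra k K] [Field Ω] [Algebra K Ω]

variable (K Ω) in
/-- The Galois group of the extension `Ω / K`. In the theorem `Ω` is a separable closure of `K`, so this
is the absolute Galois group of `K`. -/
abbrev Gal : Type := Ω ≃ₐ[K] Ω

/-- The absolute Galois group of the field `L` between `K` and `Ω`. -/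
abbrev GalL (L : IntermediateField K Ω) : Type := L.fixingSubgroup

/-- The valuation ring `A` of `Ω` lies above the place `v` of `K`. -/
def Above (A : ValuationSubring Ω) (v : Place k K) : Prop := A.comap (algebraMap K Ω) = v.1

variable (K) in
/-- The decomposition group of the valuation ring `A`: the `σ` such that `σ A = A`. -/
def Dec (A : ValuationSubring Ω) : Set (Gal K Ω) := {σ | ∀ x, σ x ∈ A ↔ x ∈ A}

variable (K) in
/-- The inertia group of `A`: the `σ` in the decomposition group such that `σ x` is congruent to `x`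
modulo the maximal ideal of `A` for all `x` in `A`. -/
def Inr (A : ValuationSubring Ω) : Set (Gal K Ω) :=
  {σ | (∀ x, σ x ∈ A ↔ x ∈ A) ∧ ∀ x ∈ A, A.valuation (σ x - x) < 1}

/-- The fields `L` and `L'` have the same completions above the place `v` of `K`: an element `σ` of a
decomposition group above `v` fixes `L` if and only if it fixes `L'`; that is, `L K_v = L' K_v`. -/
def SameCompletions (L L' : IntermediateField K Ω) (v : Place k K) : Prop :=
  ∀ A : ValuationSubring Ω, Above A v → ∀ σ ∈ Dec K A,
    ((∀ x ∈ L, σ x = x) ↔ ∀ x ∈ L', σ x = x)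

/-- The place `v` of `K` ramifies in `L`: some element of an inertia group above `v` moves `L`. -/
def Ramifies (L : IntermediateField K Ω) (v : Place k K) : Prop :=
  ∃ A : ValuationSubring Ω, Above A v ∧ ∃ σ ∈ Inr K A, ∃ x ∈ L, σ x ≠ x

end basic

/-! ### The representations and their Selmer groups -/

section rep

variable {k K Ω : Type} [Field k] [Field K] [Algebra k K] [Field Ω] [Algebra K Ω] {p : ℕ}
  [Fact p.Prime] {N : ℕ}

/-- `ρ` is a continuous representation of the absolute Galois group of `K` on `ℤ_p ^ N`, trivial modulo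
`p` (and modulo `4` if `p = 2`) and unramified outside `S`. -/
structure IsRep (S : Set (Place k K)) (ρ : Gal K Ω →* Matrix (Fin N) (Fin N) ℤ_[p]) : Prop where
  cont : Continuous ρ
  congr : ∀ σ i j, (p : ℤ_[p]) ∣ (ρ σ - 1) i j
  congr_four : p = 2 → ∀ σ i j, (4 : ℤ_[p]) ∣ (ρ σ - 1) i j
  unramified : ∀ v ∉ S, ∀ A : ValuationSubring Ω, Above A v → ∀ σ ∈ Inr K A, ρ σ = 1

/-- The action on `V = ℚ_p ^ N`. -/
noncomputable def act (ρ : Gal K Ω →* Matrix (Fin N) (Fin N) ℤ_[p]) (σ : Gal K Ω)
    (x : Fin N → ℚ_[p]) : Fin N → ℚ_[p] :=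
  ((ρ σ).map (algebraMap ℤ_[p] ℚ_[p])).mulVec x

variable {L : IntermediateField K Ω}

/-- The continuous cocycles of the absolute Galois group of `L` with values in `V`. -/
structure IsCocycle (ρ : Gal K Ω →* Matrix (Fin N) (Fin N) ℤ_[p]) (c : GalL L → Fin N → ℚ_[p]) :
    Prop where
  cont : Continuous c
  mul : ∀ σ τ, c (σ * τ) = c σ + act ρ σ (c τ)

/-- The class of `c` is unramified outside `S`: its restriction to the inertia group of a valuation ring
above a place which is not in `S` is a coboundary. -/
def Unramified (S : Set (Place k K)) (ρ : Gal K Ω →* Matrix (Fin N) (Fin N) ℤ_[p])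
    (c : GalL L → Fin N → ℚ_[p]) : Prop :=
  ∀ v ∉ S, ∀ A : ValuationSubring Ω, Above A v → ∃ x : Fin N → ℚ_[p],
    ∀ σ : GalL L, (σ : Gal K Ω) ∈ Inr K A → c σ = act ρ σ x - x

/-- At the places in `S` the class of `c` is invariant: for `L / K` Galois, a valuation ring `A` above a
place in `S` and `s` in the decomposition group of `A`, the conjugate of `c` by `s`, which is the cocycle
`σ ↦ s c(s⁻¹ σ s)`, differs from `c` by a coboundary on the decomposition group of `A` over `L`. That is,
the restriction of the class to the completion of `L` comes from the completion of `K`. -/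
def InvariantAt (S : Set (Place k K)) (ρ : Gal K Ω →* Matrix (Fin N) (Fin N) ℤ_[p])
    (c : GalL L → Fin N → ℚ_[p]) : Prop :=
  ∀ v ∈ S, ∀ A : ValuationSubring Ω, Above A v → ∀ s ∈ Dec K A, ∃ x : Fin N → ℚ_[p],
    ∀ σ τ : GalL L, (σ : Gal K Ω) ∈ Dec K A → (τ : Gal K Ω) = s⁻¹ * σ * s →
      act ρ s (c τ) - c σ = act ρ σ x - x

/-- Every cocycle `c` of the absolute Galois group of `L` whose class is unramified outside `S` and
invariant at the places in `S` differs by a coboundary from the restriction of a cocycle `c'` of the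
absolute Galois group of `K` whose class is unramified outside `S`. -/
def ClassesComeFromBase (S : Set (Place k K)) (ρ : Gal K Ω →* Matrix (Fin N) (Fin N) ℤ_[p])
    (L : IntermediateField K Ω) : Prop :=
  ∀ c : GalL L → Fin N → ℚ_[p], IsCocycle ρ c → Unramified S ρ c → InvariantAt S ρ c →
    ∃ c' : GalL (⊥ : IntermediateField K Ω) → Fin N → ℚ_[p], IsCocycle ρ c' ∧
      Unramified S ρ c' ∧ ∃ x : Fin N → ℚ_[p],
        ∀ (σ : GalL L) (τ : GalL (⊥ : IntermediateField K Ω)),
          (τ : Gal K Ω) = (σ : Gal K Ω) → c σ = c' τ + (act ρ σ x - x)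

end rep

/-! ### The Galois modules, their points and their Tate-Shafarevich groups -/

section mod

variable {k K Ω : Type} [Field k] [Field K] [Algebra k K] [Field Ω] [Algebra K Ω]

/-- The elements of `M` which are fixed by the subset `U` of the Galois group. -/
def Fixed (M : Type) [AddCommGroup M] [DistribMulAction (Gal K Ω) M] (U : Set (Gal K Ω)) :
    AddSubgroup M where
  carrier := {P | ∀ σ ∈ U, σ • P = P}
  add_mem' := fun {a b} ha hb g hg => by rw [smul_add, ha g hg, hb g hg]
  zero_mem' := fun g _ => smul_zero g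
  neg_mem' := fun {a} ha g hg => by rw [smul_neg, ha g hg]

/-- The torsion of `p`-power order of `M` is `ℚ_p ^ N / ℤ_p ^ N` (by means of `φ`), with a continuous
representation `ρ` of the Galois group on `ℤ_p ^ N`, trivial modulo `p` (modulo `4` if `p = 2`) and
unramified outside `S`. -/
structure HasTateModule (M : Type) [AddCommGroup M] [DistribMulAction (Gal K Ω) M]
    (S : Set (Place k K)) {p : ℕ} [Fact p.Prime] {N : ℕ}
    (ρ : Gal K Ω →* Matrix (Fin N) (Fin N) ℤ_[p]) (φ : (Fin N → ℚ_[p]) →+ M) : Prop where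
  isRep : IsRep S ρ
  kernel : ∀ x, φ x = 0 ↔ ∀ j, ‖x j‖ ≤ 1
  image : ∀ (P : M) (n : ℕ), p ^ n • P = 0 → ∃ x, φ x = P
  equivariant : ∀ σ x, φ (act ρ σ x) = σ • φ x

/-- The points of `M` over the strict henselizations above places outside `S` are divisible by `p`:
for an abelian variety this holds at the places of good reduction. -/
def GoodPlaces (M : Type) [AddCommGroup M] [DistribMulAction (Gal K Ω) M] (S : Set (Place k K))
    (p : ℕ) : Prop :=
  ∀ v ∉ S, ∀ A : ValuationSubring Ω, Above A v → ∀ U : Subgroup (Gal K Ω),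
    IsOpen (U : Set (Gal K Ω)) → ∀ P ∈ Fixed M (Inr K A ∩ U), ∃ Q ∈ Fixed M (Inr K A ∩ U), p • Q = P

/-- The residue field does not change at `A` in the extension of `K` which belongs to `U`: the
decomposition group of `A` is generated by the inertia group and by elements of `U`. -/
def SameResidueField (A : ValuationSubring Ω) (U : Subgroup (Gal K Ω)) : Prop :=
  ∀ σ ∈ Dec K A, ∃ τ ∈ Inr K A, ∃ u ∈ U, σ = τ * u

/-- The condition at the places in `S`. Let `A` lie above a place in `S` and let `U` be an open normal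
subgroup of the Galois group such that the residue field does not change at `A` in the corresponding
extension `K'`. Then there is `a` such that, up to `p ^ a`, the decomposition group of `A` acts trivially
on `M(K'_A) ⊗ ℚ_p / ℤ_p`: the points `p ^ a (s X - X)` are divisible by all powers of `p` up to torsion.
For an abelian variety this holds if the reduction is semistable: the connected component of the Néron
model does not change in `K'`, the kernel of the reduction is `p`-divisible since the characteristic is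
zero, and the group of components is finite. -/
def SemistablePlaces (M : Type) [AddCommGroup M] [DistribMulAction (Gal K Ω) M]
    (S : Set (Place k K)) (p : ℕ) : Prop :=
  ∀ v ∈ S, ∀ A : ValuationSubring Ω, Above A v → ∀ U : Subgroup (Gal K Ω), U.Normal →
    IsOpen (U : Set (Gal K Ω)) → SameResidueField A U →
      ∃ a : ℕ, ∀ s ∈ Dec K A, ∀ X ∈ Fixed M (Dec K A ∩ U), ∀ n : ℕ,
        ∃ R ∈ Fixed M (Dec K A ∩ U), ∃ m : ℕ, p ^ m • (p ^ a • (s • X - X) - p ^ n • R) = 0

/-- The module `M` has the following properties of the group `A(K^sep)` of the points of an abelian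
variety `A` over `K` with good reduction outside `S` all of whose points of order `p` (of order `4` if
`p = 2`) are rational:
* every point is defined over a finite extension of `K`;
* `M` is divisible by `p`;
* the torsion of `p`-power order comes from the Tate module, see `HasTateModule`;
* the conditions `GoodPlaces` outside `S` and `SemistablePlaces` at `S` (by a theorem of Raynaud, `A` has
  semistable reduction at all places since its points of order `p ≥ 3` or `4` are rational);
* the group of the points over a finite extension of `K` is finitely generated (Lang, Néron; this is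
  the case if `k` is finitely generated over `ℚ`). -/
structure LikePoints (Ω : Type) [Field Ω] [Algebra K Ω] (M : Type) [AddCommGroup M]
    [DistribMulAction (Gal K Ω) M] (S : Set (Place k K)) (p : ℕ) [Fact p.Prime] : Prop where
  open_stabilizer : ∀ P : M, IsOpen {σ : Gal K Ω | σ • P = P}
  divisible : ∀ P : M, ∃ Q : M, p • Q = P
  torsion : ∃ (N : ℕ) (ρ : Gal K Ω →* Matrix (Fin N) (Fin N) ℤ_[p]) (φ : (Fin N → ℚ_[p]) →+ M),
    HasTateModule M S ρ φ
  good_places : GoodPlaces (Ω := Ω) M S p
  semistable_places : SemistablePlaces (Ω := Ω) M S p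
  mordell_weil : ∀ U : Subgroup (Gal K Ω), IsOpen (U : Set (Gal K Ω)) →
    (Fixed M (U : Set (Gal K Ω))).FG

variable {M : Type} [AddCommGroup M] [DistribMulAction (Gal K Ω) M] {L : IntermediateField K Ω}

/-- The continuous cocycles of the absolute Galois group of `L` with values in the discrete
module `M`. -/
structure IsDiscreteCocycle (f : GalL L → M) : Prop where
  cont : IsLocallyConstant f
  mul : ∀ σ τ : GalL L, f (σ * τ) = f σ + (σ : Gal K Ω) • f τ

/-- The restriction of `f` to the subset `D` is a coboundary with values in `M`. -/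
def CoboundaryOn (D : Set (Gal K Ω)) (f : GalL L → M) : Prop :=
  ∃ P : M, ∀ σ : GalL L, (σ : Gal K Ω) ∈ D → f σ = (σ : Gal K Ω) • P - P

variable (k) in
/-- The class of `f` is in the Tate-Shafarevich group of `M` over `L`: its restrictions to the
decomposition groups of all valuation rings above all places are zero. -/
structure InSha (f : GalL L → M) : Prop where
  cocycle : IsDiscreteCocycle f
  locally_trivial : ∀ (v : Place k K) (A : ValuationSubring Ω), Above A v → CoboundaryOn (Dec K A) f

variable (k) in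
/-- The sequence `f` is an element of the `p`-adic Tate module of the Tate-Shafarevich group of `M` over
`L`: the classes `c_n` of the `f n` are in the Tate-Shafarevich group, `c_0 = 0` and `p c_(n+1) = c_n`. -/
structure InTateSha (p : ℕ) (f : ℕ → GalL L → M) : Prop where
  mem : ∀ n, InSha k (f n)
  zero : CoboundaryOn Set.univ (f 0)
  step : ∀ n, CoboundaryOn Set.univ fun σ => p • f (n + 1) σ - f n σ

variable (k M)

/-- The `p`-adic Tate module of the Tate-Shafarevich group of `M` over `L` is zero: for its elements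
`f` all the `f n` are coboundaries. -/
def TateShaZero (p : ℕ) (L : IntermediateField K Ω) : Prop :=
  ∀ f : ℕ → GalL L → M, InTateSha k p f → ∀ n, CoboundaryOn Set.univ (f n)

/-- The restriction from `K` to `L` is an isomorphism `V_p Sha(M / K) → V_p Sha(M / L)` of the rational
`p`-adic Tate modules of the Tate-Shafarevich groups:
* an element `f'` of the Tate module over `K` is zero if the restrictions of all the `f' n` to the
  absolute Galois group of `L` are coboundaries;
* for every element `f` of the Tate module over `L` there are a power `p ^ a` and an element `f'` of the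
  Tate module over `K` such that `p ^ a f` is the restriction of `f'`. -/
structure SameTateSha (p : ℕ) (L : IntermediateField K Ω) : Prop where
  injective : ∀ f' : ℕ → GalL (⊥ : IntermediateField K Ω) → M, InTateSha k p f' →
    (∀ n, ∃ P : M, ∀ (σ : GalL L) (τ : GalL (⊥ : IntermediateField K Ω)),
      (τ : Gal K Ω) = (σ : Gal K Ω) → f' n τ = (σ : Gal K Ω) • P - P) →
        ∀ n, CoboundaryOn Set.univ (f' n)
  surjective : ∀ f : ℕ → GalL L → M, InTateSha k p f →
    ∃ (a : ℕ) (f' : ℕ → GalL (⊥ : IntermediateField K Ω) → M), InTateSha k p f' ∧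
      ∀ n, ∃ P : M, ∀ (σ : GalL L) (τ : GalL (⊥ : IntermediateField K Ω)),
        (τ : Gal K Ω) = (σ : Gal K Ω) → p ^ a • f n σ = f' n τ + ((σ : Gal K Ω) • P - P)

omit k in
/-- The groups of the points of `M` over `L` and over `K` have the same rank: a nonzero multiple of
every point over `L` is a point over `K`. -/
def SameRank (L : IntermediateField K Ω) : Prop :=
  ∀ P ∈ Fixed M (L.fixingSubgroup : Set (Gal K Ω)), ∃ n : ℕ, n ≠ 0 ∧
    n • P ∈ Fixed M (Set.univ : Set (Gal K Ω))

end mod

/-! ### The properties of the extensions -/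

section ext

variable {k K Ω : Type} [Field k] [Field K] [Algebra k K] [Field Ω] [Algebra K Ω]

/-- The extension `L / K` is cyclic. -/
def IsCyclicExtension (L : IntermediateField K Ω) : Prop := IsCyclic (L ≃ₐ[K] L)

/-- `L₀ / K` is a Galois extension of degree `p` in which all places in `S` ramify. -/
structure Admissible (p : ℕ) (S : Set (Place k K)) (L₀ : IntermediateField K Ω) : Prop where
  galois : IsGalois K L₀
  degree : Module.finrank K L₀ = p
  ramified : ∀ v ∈ S, Ramifies L₀ v

/-- `L / K` is a cyclic extension of degree `p` with the same completions as `L₀` at the places in `B`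
and in `S`. -/
structure CyclicLike (p : ℕ) (B S : Set (Place k K)) (L₀ L : IntermediateField K Ω) : Prop where
  galois : IsGalois K L
  cyclic : IsCyclicExtension L
  degree : Module.finrank K L = p
  completions : ∀ v ∈ B ∪ S, SameCompletions L L₀ v

/-- For all representations of `G_K` as in `IsRep` (trivial modulo `p`, unramified outside `S`) the classes
over `L` which are unramified outside `S` and invariant at `S` come from `K`. -/
def SelmerStable (p : ℕ) [Fact p.Prime] (S : Set (Place k K)) (L : IntermediateField K Ω) : Prop :=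
  ∀ (N : ℕ) (ρ : Gal K Ω →* Matrix (Fin N) (Fin N) ℤ_[p]), IsRep S ρ → ClassesComeFromBase S ρ L

/-- No rank and no Tate-Shafarevich group grows in `L`: for all modules `M` with the properties of the
group of the points of an abelian variety over `K` with good reduction outside `S` and with rational
points of order `p` (of order `4` if `p = 2`), the groups of the points over `L` and over `K` have the
same rank, and the restriction is an isomorphism of the rational `p`-adic Tate modules of the
Tate-Shafarevich groups; in particular the Tate module over `L` is zero if and only if that over `K` is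
zero. -/
def PointsStable (p : ℕ) [Fact p.Prime] (S : Set (Place k K)) (L : IntermediateField K Ω) : Prop :=
  ∀ (M : Type) [AddCommGroup M] [DistribMulAction (Gal K Ω) M], LikePoints Ω M S p →
    SameRank M L ∧ SameTateSha k M p L ∧
      (TateShaZero k M p L ↔ TateShaZero k M p (⊥ : IntermediateField K Ω))

end ext

/-! ### Proof of the theorem -/

section proof

open Pool.Agent.NH7.GF Pool.Agent.NH7.GH Pool.Agent.H525R3.FFp

theorem t_mn : S_mn :=
  s_mn s_dvdH s_plcH (s_rfin s_cst s_dvdH) s_kl (s_hilv s_hil s_plcH) s_pole s_lz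

open Pool.Agent.NH7.FT in
theorem t_pic : S_picB :=
  s_picB (s_picA (s_rep V2.s_min s_ab s_bez s_lin) (s_ultra s_derx s_grm)) s_acl V2.s_res s_kum

variable {k K : Type} [Field k] [Field K] [Algebra k K] {p : ℕ} [hp : Fact p.Prime] {N : ℕ}

/-- a set of places as a set of valuation rings -/
def toV (S : Set (Place k K)) : Set (ValuationSubring K) := Subtype.val '' S

theorem above_ne {A : ValuationSubring (SeparableClosure K)} {v : Place k K} (h : Above A v) :
    A ≠ ⊤ := by
  rintro rfl
  apply v.2.1
  rw [← (h : (⊤ : ValuationSubring (SeparableClosure K)).comap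
    (algebraMap K (SeparableClosure K)) = v.1)]
  ext x
  exact ⟨fun _ => trivial, fun _ => trivial⟩

theorem above_trv {A : ValuationSubring (SeparableClosure K)} {v : Place k K} (h : Above A v) :
    Trv k A := by
  intro c
  have h1 := v.2.2 c
  rw [← (h : A.comap (algebraMap K (SeparableClosure K)) = v.1)] at h1
  exact h1

theorem mem_toV {S : Set (Place k K)} {A : ValuationSubring (SeparableClosure K)} {v : Place k K}
    (h : Above A v) : A.comap (algebraMap K (SeparableClosure K)) ∈ toV S ↔ v ∈ S := by
  rw [(h : A.comap (algebraMap K (SeparableClosure K)) = v.1)]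
  constructor
  · rintro ⟨w, hw, e⟩
    have e' : w = v := Subtype.ext e
    rwa [← e']
  · exact fun hv => ⟨v, hv, rfl⟩

variable (hb : ∀ A : ValuationSubring (SeparableClosure K),
  A.comap (algebraMap K (SeparableClosure K)) = ⊤ → A = ⊤)

include hb

theorem below {A : ValuationSubring (SeparableClosure K)} (hA : A ≠ ⊤) (hAt : Trv k A) :
    ∃ v : Place k K, Above A v :=
  ⟨⟨_, fun h => hA (hb A h), hAt⟩, rfl⟩

theorem repH_of {S : Set (Place k K)}
    {ρ : Gal K (SeparableClosure K) →* Matrix (Fin N) (Fin N) ℤ_[p]}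
    (h : IsRep S ρ) : RepH k (toV S) ρ := by
  refine ⟨h.cont, h.congr, fun A hA hAt hAS g hg => ?_⟩
  obtain ⟨v, hv⟩ := below hb hA hAt
  exact h.unramified v (fun h1 => hAS ((mem_toV hv).2 h1)) A hv g hg

theorem selH_of {S : Set (Place k K)}
    {ρ : Gal K (SeparableClosure K) →* Matrix (Fin N) (Fin N) ℤ_[p]}
    {L : IntermediateField K (SeparableClosure K)} {c : GalL L → Fin N → ℚ_[p]}
    (h1 : IsCocycle ρ c) (h2 : Unramified S ρ c) (h3 : InvariantAt S ρ c) :
    SelH k (toV S) ρ L.fixingSubgroup c := by
  refine ⟨h1.cont, h1.mul, fun A hA hAt hAS => ?_, fun A hA hAt hAS s hs => ?_⟩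
  · obtain ⟨v, hv⟩ := below hb hA hAt
    exact h2 v (fun h4 => hAS ((mem_toV hv).2 h4)) A hv
  · obtain ⟨v, hv⟩ := below hb hA hAt
    exact h3 v ((mem_toV hv).1 hAS) A hv s hs

omit hb in
/-- the conclusion for subgroups -/
def Des (k : Type) [Field k] [Algebra k K] (S : Set (ValuationSubring K))
    (ρ : Gal K (SeparableClosure K) →* Matrix (Fin N) (Fin N) ℤ_[p])
    (H H₀ : Subgroup (Gal K (SeparableClosure K))) : Prop :=
  ∀ c : H → Fin N → ℚ_[p], SelH k S ρ H c → ∃ c' : H₀ → Fin N → ℚ_[p],
    (Continuous c' ∧ (∀ σ τ, c' (σ * τ) = c' σ + mQ (ρ σ) (c' τ)) ∧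
      ∀ A : ValuationSubring (SeparableClosure K), A ≠ ⊤ → Trv k A →
        A.comap (algebraMap K (SeparableClosure K)) ∉ S →
          ∀ σ : H₀, (σ : GK K) ∈ Pool.Agent.NH7.GF.Inr A → c' σ = 0) ∧
    ∃ x : Fin N → ℚ_[p], ∀ (σ : H) (τ : H₀), (τ : Gal K (SeparableClosure K)) = σ →
      c σ = c' τ + (mQ (ρ σ) x - x)

theorem comes_of {S : Set (Place k K)}
    {ρ : Gal K (SeparableClosure K) →* Matrix (Fin N) (Fin N) ℤ_[p]}
    {L : IntermediateField K (SeparableClosure K)}
    (h : Des k (toV S) ρ L.fixingSubgroup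
      (⊥ : IntermediateField K (SeparableClosure K)).fixingSubgroup) :
    ClassesComeFromBase S ρ L := by
  intro c h1 h2 h3
  obtain ⟨c', ⟨h4, h5, h6⟩, x, hx⟩ := h c (selH_of hb h1 h2 h3)
  refine ⟨c', ⟨h4, h5⟩, fun v hv A hA => ⟨0, fun σ hσ => ?_⟩, x, hx⟩
  have h7 : c' σ = 0 := h6 A (above_ne hA) (above_trv hA) (fun h8 => hv ((mem_toV hA).1 h8)) σ hσ
  have h8 : act ρ (σ : Gal K (SeparableClosure K)) (0 : Fin N → ℚ_[p]) = 0 := Matrix.mulVec_zero _
  rw [h7, h8, sub_zero]

omit hp in
theorem inT_iff {M : Type} [AddCommGroup M] [DistribMulAction (Gal K (SeparableClosure K)) M]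
    {L : IntermediateField K (SeparableClosure K)} (f : ℕ → GalL L → M) :
    InTateSha k p f ↔ (∀ n, ShM (DsH k K) L.fixingSubgroup (f n)) ∧
      (∃ m : M, ∀ σ : L.fixingSubgroup, f 0 σ = (σ : Gal K (SeparableClosure K)) • m - m) ∧
      ∀ n, ∃ m : M, ∀ σ : L.fixingSubgroup,
        p • f (n + 1) σ = f n σ + ((σ : Gal K (SeparableClosure K)) • m - m) := by
  have h1 : ∀ f : GalL L → M, InSha k f ↔ ShM (DsH k K) L.fixingSubgroup f := by
    intro f
    constructor
    · intro h
      refine ⟨⟨h.cocycle.cont, h.cocycle.mul⟩, ?_⟩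
      rintro D ⟨A, hA, hAt, rfl⟩
      obtain ⟨v, hv⟩ := below hb hA hAt
      exact h.locally_trivial v A hv
    · intro h
      exact ⟨⟨h.coc.loc, h.coc.mul⟩, fun v A hA =>
        h.tri _ ⟨A, above_ne hA, above_trv hA, rfl⟩⟩
  have h2 : ∀ f : GalL L → M, CoboundaryOn Set.univ f ↔
      ∃ m : M, ∀ σ : L.fixingSubgroup, f σ = (σ : Gal K (SeparableClosure K)) • m - m := by
    intro f
    constructor
    · rintro ⟨m, hm⟩
      exact ⟨m, fun σ => hm σ (Set.mem_univ _)⟩
    · rintro ⟨m, hm⟩
      exact ⟨m, fun σ _ => hm σ⟩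
  have h3 : ∀ (f g : GalL L → M), CoboundaryOn Set.univ (fun σ => p • g σ - f σ) ↔
      ∃ m : M, ∀ σ : L.fixingSubgroup,
        p • g σ = f σ + ((σ : Gal K (SeparableClosure K)) • m - m) := by
    intro f g
    rw [h2]
    refine exists_congr fun m => forall_congr' fun σ => ?_
    rw [sub_eq_iff_eq_add, add_comm]
  constructor
  · intro h
    exact ⟨fun n => (h1 _).1 (h.mem n), (h2 _).1 h.zero, fun n => (h3 _ _).1 (h.step n)⟩
  · rintro ⟨h4, h5, h6⟩
    exact ⟨fun n => (h1 _).2 (h4 n), (h2 _).2 h5, fun n => (h3 _ _).2 (h6 n)⟩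

omit hp hb in
theorem cob_iff {M : Type} [AddCommGroup M] [DistribMulAction (Gal K (SeparableClosure K)) M]
    {L : IntermediateField K (SeparableClosure K)} (f : GalL L → M) : CoboundaryOn Set.univ f ↔
      ∃ m : M, ∀ σ : L.fixingSubgroup, f σ = (σ : Gal K (SeparableClosure K)) • m - m := by
  constructor
  · rintro ⟨m, hm⟩
    exact ⟨m, fun σ => hm σ (Set.mem_univ _)⟩
  · rintro ⟨m, hm⟩
    exact ⟨m, fun σ _ => hm σ⟩

omit hp in
theorem tsh_iff {M : Type} [AddCommGroup M] [DistribMulAction (Gal K (SeparableClosure K)) M]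
    {L : IntermediateField K (SeparableClosure K)} :
    TateShaZero k M p L ↔ TSh M p (DsH k K) L.fixingSubgroup := by
  constructor
  · intro h f hf h0 hs n
    exact (cob_iff _).1 (h f ((inT_iff hb f).2 ⟨hf, h0, hs⟩) n)
  · intro h f hf n
    obtain ⟨h1, h2, h3⟩ := (inT_iff hb f).1 hf
    exact (cob_iff _).2 (h f h1 h2 h3 n)

omit hp hb in
/-- the isomorphism of the rational Tate modules for subgroups -/
def SameT (M : Type) [AddCommGroup M] [DistribMulAction (GK K) M] (p : ℕ) (Ds : Set (Subgroup (GK K)))
    (H H₀ : Subgroup (GK K)) : Prop :=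
  (∀ f' : ℕ → H₀ → M, ((∀ n, ShM Ds H₀ (f' n)) ∧
      (∃ m : M, ∀ τ : H₀, f' 0 τ = (τ : GK K) • m - m) ∧
      ∀ n, ∃ m : M, ∀ τ : H₀, p • f' (n + 1) τ = f' n τ + ((τ : GK K) • m - m)) →
    (∀ n, ∃ P : M, ∀ (σ : H) (τ : H₀), (τ : GK K) = (σ : GK K) → f' n τ = (σ : GK K) • P - P) →
      ∀ n, ∃ m : M, ∀ τ : H₀, f' n τ = (τ : GK K) • m - m) ∧
  ∀ f : ℕ → H → M, ((∀ n, ShM Ds H (f n)) ∧
      (∃ m : M, ∀ σ : H, f 0 σ = (σ : GK K) • m - m) ∧
      ∀ n, ∃ m : M, ∀ σ : H, p • f (n + 1) σ = f n σ + ((σ : GK K) • m - m)) →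
    ∃ (a : ℕ) (f' : ℕ → H₀ → M), ((∀ n, ShM Ds H₀ (f' n)) ∧
      (∃ m : M, ∀ τ : H₀, f' 0 τ = (τ : GK K) • m - m) ∧
      ∀ n, ∃ m : M, ∀ τ : H₀, p • f' (n + 1) τ = f' n τ + ((τ : GK K) • m - m)) ∧
      ∀ n, ∃ P : M, ∀ (σ : H) (τ : H₀), (τ : GK K) = (σ : GK K) →
        p ^ a • f n σ = f' n τ + ((σ : GK K) • P - P)

omit hp in
theorem same_of {M : Type} [AddCommGroup M] [DistribMulAction (Gal K (SeparableClosure K)) M]
    {L : IntermediateField K (SeparableClosure K)}
    (h : SameT M p (DsH k K) L.fixingSubgroup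
      (⊥ : IntermediateField K (SeparableClosure K)).fixingSubgroup) : SameTateSha k M p L := by
  constructor
  · intro f' hf' hr n
    exact (cob_iff _).2 (h.1 f' ((inT_iff hb f').1 hf') hr n)
  · intro f hf
    obtain ⟨a, f', h1, h2⟩ := h.2 f ((inT_iff hb f).1 hf)
    exact ⟨a, f', (inT_iff hb f').2 h1, h2⟩

omit hb

theorem norm_iff (x : Fin N → ℚ_[p]) : (∀ j, ‖x j‖ ≤ 1) ↔ ∃ z : Fin N → ℤ_[p], x = cQ z := by
  constructor
  · intro h
    exact ⟨fun j => ⟨x j, h j⟩, rfl⟩
  · rintro ⟨z, rfl⟩ j
    exact (z j).2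

theorem fin_index {χ : GK K → ZMod p} (hχ : Hm χ) : (kerX hχ).FiniteIndex := by
  have : NeZero p := ⟨hp.out.ne_zero⟩
  let f : GK K →* Multiplicative (ZMod p) :=
    { toFun := fun g => Multiplicative.ofAdd (χ g)
      map_one' := by
        rw [hm_one hχ]
        rfl
      map_mul' := fun g h => by
        rw [hχ.m]
        rfl }
  have e : f.ker = kerX hχ := by
    ext g
    rw [MonoidHom.mem_ker, mem_kerX]
    exact ofAdd_eq_one
  rw [← e]
  exact Subgroup.finiteIndex_ker f

/-- a homomorphism which is ramified at `A` does not change the residue field -/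
theorem same_res {χ : GK K → ZMod p} (hχ : Hm χ) {A : ValuationSubring (SeparableClosure K)}
    (h : ∃ g ∈ Pool.Agent.NH7.GF.Inr A, χ g ≠ 0) : SameResidueField A (kerX hχ) := by
  obtain ⟨g, hg, hg0⟩ := h
  intro σ _
  have h1 : ∃ n : ℕ, χ (g ^ n) = χ σ := by
    have : NeZero p := ⟨hp.out.ne_zero⟩
    refine ⟨(χ σ * (χ g)⁻¹).val, ?_⟩
    have h2 : ∀ n : ℕ, χ (g ^ n) = n * χ g := by
      intro n
      induction n with
      | zero => rw [pow_zero, hm_one hχ, Nat.cast_zero, zero_mul]
      | succ n ih => rw [pow_succ, hχ.m, ih, Nat.cast_succ, add_mul, one_mul]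
    rw [h2, ZMod.natCast_zmod_val, mul_assoc, inv_mul_cancel₀ hg0, mul_one]
  obtain ⟨n, hn⟩ := h1
  refine ⟨g ^ n, (Pool.Agent.NH7.GF.Inr A).pow_mem hg n, (g ^ n)⁻¹ * σ, ?_, by group⟩
  have h3 : χ ((g ^ n)⁻¹ * σ) = 0 := by
    have h4 := hχ.m (g ^ n) ((g ^ n)⁻¹ * σ)
    rw [mul_inv_cancel_left, hn] at h4
    have h5 : χ σ + χ ((g ^ n)⁻¹ * σ) = χ σ + 0 := by rw [← h4, add_zero]
    exact add_left_cancel h5
  exact (mem_kerX hχ).2 h3

end proof

open Pool.Agent.NH7.GF Pool.Agent.NH7.GH Pool.Agent.H525R3.FFp in
/-- **The theorem.** Let `k` be a field which is finitely generated over `ℚ`, or a Hilbertian field of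
characteristic zero, `K / k` a function field of one variable, `p` a prime number such that `K` contains
a primitive `p`-th root of unity, and `S` a finite nonempty set of places of `K / k`. There are Galois extensions `L₀ / K` of degree `p` in which all places in `S` ramify. For
every such `L₀` and every finite set `B` of places there are infinitely many cyclic extensions `L / K` of
degree `p` with the same completions as `L₀` at `B` and at `S` such that:
* for all continuous representations `ρ` of the absolute Galois group of `K`, congruent to `1` modulo `p`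
  (modulo `4` if `p = 2`) and unramified outside `S`, the classes over `L` which are unramified outside
  `S` and invariant at the places in `S` come from classes over `K` which are unramified outside `S`;
* for all modules `M` with the properties of the group of the points of an abelian variety over `K` with
  good reduction outside `S` and with rational points of order `p` (of order `4` if `p = 2`), the groups
  of the points over `L` and over `K` have the same rank, and the restriction is an isomorphism of the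
  rational `p`-adic Tate modules of the Tate-Shafarevich groups over `K` and over `L`; in particular
  `T_p Sha(M / L)` is zero if and only if `T_p Sha(M / K)` is zero. -/
theorem result {k : Type} [Field k] [CharZero k] (hk : Algebra.EssFiniteType ℚ k ∨ IsHilbertian k)
    {K : Type} [Field K] [Algebra k K] [Algebra.EssFiniteType k K] (htr : Algebra.trdeg k K = 1)
    {p : ℕ} [Fact p.Prime] (hz : ∃ z : K, IsPrimitiveRoot z p)
    {S : Set (Place k K)} (hS : S.Finite) (hne : S.Nonempty) :
    (∃ L₀ : IntermediateField K (SeparableClosure K), Admissible p S L₀) ∧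
    ∀ L₀ : IntermediateField K (SeparableClosure K), Admissible p S L₀ →
      ∀ B : Set (Place k K), B.Finite →
        {L : IntermediateField K (SeparableClosure K) | CyclicLike p B S L₀ L ∧
          SelmerStable p S L ∧ PointsStable p S L}.Infinite := by
  classical
  have : FF.IsFF k K := ⟨inferInstance, htr⟩
  have hk : Hilb k := hk.elim (fun _ => Pool.Agent.NH7.FT.hilb_fg k) id
  obtain ⟨ζ, hζ⟩ := hz
  have hb := (s_plcH k K).2
  have hplc : ∀ v : Place k K, ∃ w : FF.Place k K, w.O = v.1 := fun v =>
    (s_plcH k K).1 v.1 v.2.1 v.2.2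
  have hpic' : PicF k K p := t_pic k K p ζ hζ
  have hSf : (toV S).Finite := hS.image _
  refine ⟨?_, ?_⟩
  · obtain ⟨χ, hχ, hram⟩ := exists_ramH k s_ram s_plcH s_dvdH hζ hSf
    have hr : ∀ v ∈ S, ∃ A : ValuationSubring (SeparableClosure K), Above A v ∧
        ∃ g ∈ Pool.Agent.NH7.GF.Inr A, χ g ≠ 0 := by
      intro v hv
      obtain ⟨v', hv'⟩ := hplc v
      have hab : Above (Av v') v :=
        Eq.trans (AvH_ab s_ext v' :
          (Av v').comap (algebraMap K (SeparableClosure K)) = v'.O) hv'
      exact ⟨Av v', hab, hram (Av v') (above_ne hab) (above_trv hab) ((mem_toV hab).2 hv)⟩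
    obtain ⟨v₀, hv₀⟩ := hne
    obtain ⟨-, -, g, -, hg⟩ := hr v₀ hv₀
    obtain ⟨σ, hσ⟩ := hm_ex hχ hg
    refine ⟨fld hχ, fld_gal hχ, (fld_cyc hχ hσ).2, fun v hv => ?_⟩
    obtain ⟨A, hA, g, hg, hg0⟩ := hr v hv
    refine ⟨A, hA, g, hg, ?_⟩
    by_contra hc
    push Not at hc
    exact hg0 ((fld_iff hχ g).2 hc)
  rintro L₀ ⟨hgal₀, hdeg₀, hram₀⟩ B hB
  obtain ⟨χ₀, h0, hχ₀⟩ := exists_hm L₀ ⟨hgal₀, hdeg₀⟩
  intro hfin
  set F := {L : IntermediateField K (SeparableClosure K) | CyclicLike p B S L₀ L ∧
        SelmerStable p S L ∧ PointsStable p S L} with hF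
  -- the ramified places of the fields in `F`
  have hram : ∀ L : IntermediateField K (SeparableClosure K), ∃ T : Set (ValuationSubring K),
      T.Finite ∧ (L ∈ F → ∀ A : ValuationSubring (SeparableClosure K), A ≠ ⊤ → Trv k A →
        A.comap (algebraMap K (SeparableClosure K)) ∉ T →
          ∀ g ∈ Pool.Agent.NH7.GF.Inr A, ∀ x ∈ L, g x = x) := by
    intro L
    by_cases hL : L ∈ F
    · obtain ⟨x, hx, hxL⟩ := exists_hm (p := p) L ⟨hL.1.galois, hL.1.degree⟩
      obtain ⟨T, hT, hT'⟩ := fin_ramH k s_plcH hζ hx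
      exact ⟨T, hT, fun _ A hA hAt hAT g hg => (hxL g).1 (hT' A hA hAt hAT g hg)⟩
    · exact ⟨∅, Set.finite_empty, fun h => absurd h hL⟩
  choose T hTf hT using hram
  let B' : Set (ValuationSubring K) := toV B ∪ toV S ∪ ⋃ L ∈ F, T L
  have hB' : B'.Finite := ((hB.image _).union hSf).union (hfin.biUnion fun L _ => hTf L)
  have hneS : ∃ v : FF.Place k K, v.O ∈ toV S := by
    obtain ⟨v, hv⟩ := hne
    obtain ⟨w, hw⟩ := hplc v
    exact ⟨w, v, hv, hw.symm⟩
  have hr0 : ∀ A : ValuationSubring (SeparableClosure K), A ≠ ⊤ → Trv k A →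
      A.comap (algebraMap K (SeparableClosure K)) ∈ toV S →
        ∃ g ∈ Pool.Agent.NH7.GF.Inr A, χ₀ g ≠ 0 := by
    rintro A hA hAt ⟨v, hv, hvA⟩
    obtain ⟨A', hA', g, hg, x, hx, hgx⟩ := hram₀ v hv
    obtain ⟨w, hw⟩ := hplc v
    refine ram_all (v := w) (A := A') (A' := A) (Eq.trans hA' hw.symm) (Eq.trans hvA.symm hw.symm)
      h0 ⟨g, hg, fun h1 => hgx ((hχ₀ g).1 h1 x hx)⟩
  obtain ⟨χ, hχ, ⟨σ, hσ⟩, hloc, hramS, ⟨A, hA, hAt, hAB, g, hg, hg0⟩, hmain⟩ :=
    main_selU t_mn s_ext s_cnj s_plcH P2.t_cmpD Pool.Agent.NH7.BK.s_int hζ hk hpic' hSf hB' hneS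
      h0 hr0
  have hfix : (fld hχ).fixingSubgroup = kerX hχ := fld_fix hχ
  have hcyc := fld_cyc hχ hσ
  have hL : fld hχ ∈ F := by
    refine ⟨⟨fld_gal hχ, hcyc.1, hcyc.2, fun v hv A hA s hs => ?_⟩, fun N ρ hρ => ?_, ?_⟩
    · rw [← fld_iff hχ, ← hχ₀, hloc A (above_ne hA) (above_trv hA) (Or.inl ?_) s hs]
      rcases hv with hv | hv
      · exact Or.inl ((mem_toV hA).2 hv)
      · exact Or.inr ((mem_toV hA).2 hv)
    · refine comes_of hb ?_
      rw [hfix, IntermediateField.fixingSubgroup_bot]
      intro c hc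
      obtain ⟨c', hc', x, hx⟩ := hmain N ρ (repH_of hb hρ) hρ.congr_four c hc
      exact ⟨c', ⟨hc'.cont, hc'.mul, hc'.away⟩, x, hx⟩
    · intro M _ _ hM
      obtain ⟨N, ρ, φ, hρ, hker, htor, heqv⟩ := hM.torsion
      have hMo : Mo ρ M φ := ⟨hM.open_stabilizer, hM.divisible,
        fun x => (hker x).trans (norm_iff x), htor, heqv⟩
      have hnor := kerX_normal hχ
      have hfi := fin_index hχ
      have hdsc : DscT M (DsH k K) ρ (kerX hχ) φ := by
        refine dscT_of_sel (s_inv s_cpt) s_unr hχ (repH_of hb hρ)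
          (hmain N ρ (repH_of hb hρ) hρ.congr_four) hMo (fun A hA hAt hAS P hP => ?_) fun A hA hAt hAS => ?_
        · obtain ⟨v, hv⟩ := below hb hA hAt
          exact hM.good_places v (fun h1 => hAS ((mem_toV hv).2 h1)) A hv (kerX hχ)
            (kerX_open hχ) P hP
        · obtain ⟨v, hv⟩ := below hb hA hAt
          exact hM.semistable_places v ((mem_toV hv).1 hAS) A hv (kerX hχ) hnor
            (kerX_open hχ) (same_res hχ (hramS A hA hAt hAS))
      have t_lft : S_lft := s_lft s_ulim
      constructor
      · intro P hP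
        rw [hfix] at hP
        obtain ⟨n, hn, hn'⟩ := s_rkD t_lft p (GK K) N ρ M φ hMo (DsH k K) (kerX hχ) hdsc
          (hM.mordell_weil (kerX hχ) (kerX_open hχ)) P hP
        exact ⟨n, hn, fun τ _ => hn' τ (Subgroup.mem_top τ)⟩
      refine ⟨same_of hb ?_, ?_⟩
      · rw [hfix, IntermediateField.fixingSubgroup_bot]
        refine ⟨fun f' hf' hr => inj_tate s_avg p (GK K) χ hχ.m (kerX hχ) (fun g => Iff.rfl) M
          (DsH k K) f' hf'.1 hf'.2.2 fun n => ?_, fun f hf => ?_⟩
        · obtain ⟨P, hP⟩ := hr n
          exact ⟨P, fun σ => hP σ ⟨σ, Subgroup.mem_top _⟩ rfl⟩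
        · obtain ⟨a, f', h1, h2, h3, h4⟩ := up_tate t_lft s_avg Pool.Agent.NH7.BK.s_int p (GK K) N ρ M φ
            hMo χ hχ.m (DsH k K) (kerX hχ) (fun g => Iff.rfl) hdsc f hf.1 hf.2.1 hf.2.2
          exact ⟨a, f', ⟨h1, h2, h3⟩, h4⟩
      · rw [tsh_iff hb, tsh_iff hb, hfix, IntermediateField.fixingSubgroup_bot]
        exact ⟨s_dn s_avg p (GK K) χ hχ.c hχ.m (kerX hχ) (fun g => Iff.rfl) M (DsH k K),
          s_upD t_lft s_avg Pool.Agent.NH7.BK.s_int p (GK K) N ρ M φ hMo χ hχ.c hχ.m (DsH k K)
            (kerX hχ) (fun g => Iff.rfl) hdsc⟩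
  refine hg0 ((fld_iff hχ g).2 (hT _ hL A hA hAt (fun h => hAB (Or.inr ?_)) g hg))
  exact Set.mem_biUnion hL h

end Pool.Agent.Results.MP_1bdb59_nt.GoingUpOverHilbertianFields
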